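import Mathlib

set_option autoImplicit false

namespace Pool.Agent.Results.MP_7e6923_gt.Neither

open Set Filter Topology

/-- `ω* = βω \ ω`: the non-principal ultrafilters on `ℕ` -/
abbrev Om : Type := {u : Ultrafilter ℕ // ∀ n : ℕ, u ≠ pure n}

/-- Cech-complete: a `G_δ` subset of the Stone-Cech compactification -/
def CechComplete (Z : Type) [TopologicalSpace Z] : Prop :=
  IsGδ (range (stoneCechUnit : Z → StoneCech Z))

theorem Om.le (u : Om) : (u.1 : Filter ℕ) ≤ cofinite :=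
  (u.1.le_cofinite_or_eq_pure).resolve_right fun ⟨n, h⟩ => u.2 n h

def mk (u : Ultrafilter ℕ) (h : (u : Filter ℕ) ≤ cofinite) : Om :=
  ⟨u, fun n e => by
    have : ({n}ᶜ : Set ℕ) ∈ u := h (finite_singleton n).compl_mem_cofinite
    rw [e] at this
    exact (Ultrafilter.mem_pure.1 this) rfl⟩

instance : CompactSpace Om := by
  refine isCompact_iff_compactSpace.1 (IsClosed.isCompact ?_)
  convert isClosed_iInter fun n : ℕ => ultrafilter_isClosed_basic ({n}ᶜ : Set ℕ) using 1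
  ext u
  simp only [mem_iInter, mem_ofPred_eq]
  refine ⟨fun h n => Om.le ⟨u, h⟩ (finite_singleton n).compl_mem_cofinite, fun h n e => ?_⟩
  have := h n
  rw [e] at this
  exact (Ultrafilter.mem_pure.1 this) rfl

def St (B : Set ℕ) : Set Om := {u | B ∈ u.1}

theorem St_clopen (B : Set ℕ) : IsClopen (St B) :=
  ⟨(ultrafilter_isClosed_basic B).preimage continuous_subtype_val,
    (ultrafilter_isOpen_basic B).preimage continuous_subtype_val⟩

theorem exists_St {K V : Set Om} (hK : IsCompact K) (hV : IsOpen V) (h : K ⊆ V) :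
    ∃ B, K ⊆ St B ∧ St B ⊆ V := by
  refine hK.induction_on (p := fun K => ∃ B, K ⊆ St B ∧ St B ⊆ V) ?_ ?_ ?_ ?_
  · exact ⟨∅, empty_subset _, fun u hu => absurd hu u.1.empty_notMem⟩
  · exact fun s t hst ⟨B, h1, h2⟩ => ⟨B, hst.trans h1, h2⟩
  · rintro s t ⟨A, h1, h2⟩ ⟨B, h3, h4⟩
    exact ⟨A ∪ B, union_subset (fun u hu => Ultrafilter.union_mem_iff.2 (Or.inl (h1 hu)))
      fun u hu => Ultrafilter.union_mem_iff.2 (Or.inr (h3 hu)),
      fun u hu => (Ultrafilter.union_mem_iff.1 hu).elim (fun a => h2 a) fun a => h4 a⟩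
  · intro x hx
    obtain ⟨V', hV', rfl⟩ := isOpen_induced_iff.1 hV
    obtain ⟨_, ⟨B, rfl⟩, h1, h2⟩ := ultrafilterBasis_is_basis.exists_subset_of_mem_open (h hx) hV'
    exact ⟨St B, mem_nhdsWithin_of_mem_nhds ((St_clopen B).2.mem_nhds h1), B, Subset.rfl,
      fun u hu => h2 hu⟩

def Ag (P : Set (Set ℕ)) (f : C(Om, Om)) : Set C(Om, Om) :=
  {g | ∀ B ∈ P, ∀ x, (B ∈ (g x).1 ↔ B ∈ (f x).1)}

theorem Ag_clopen {P : Set (Set ℕ)} (h : P.Finite) (f : C(Om, Om)) : IsClopen (Ag P f) := by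
  convert h.isClopen_biInter fun B _ => (ContinuousMap.isClopen_setOfPred_mapsTo
    ((St_clopen B).1.preimage f.continuous).isCompact (St_clopen B)).inter
    (ContinuousMap.isClopen_setOfPred_mapsTo
    ((St_clopen B).compl.1.preimage f.continuous).isCompact (St_clopen B).compl) using 1
  ext g
  simp only [Ag, mem_ofPred_eq, mem_iInter, mem_inter_iff]
  refine forall₂_congr fun B _ => ⟨fun a => ⟨fun x hx => (a x).2 hx, fun x hx hh => hx ((a x).1 hh)⟩,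
    fun a x => ⟨fun hh => ?_, fun hh => a.1 hh⟩⟩
  by_contra hc
  exact a.2 hc hh

theorem nbhd {f : C(Om, Om)} {U : Set C(Om, Om)} (h : U ∈ 𝓝 f) :
    ∃ P : Set (Set ℕ), P.Finite ∧ Ag P f ⊆ U := by
  obtain ⟨S, h1, h2, h3⟩ := ContinuousMap.mem_nhds_iff.1 h
  have : ∀ p ∈ S, ∃ B, f '' p.1 ⊆ St B ∧ St B ⊆ p.2 := fun p hp =>
    exists_St ((h2 _ _ hp).1.image f.continuous) (h2 _ _ hp).2.1 (h2 _ _ hp).2.2.image_subset
  choose! B h4 h5 using this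
  exact ⟨B '' S, h1.image _, fun g hg => h3 fun K V hp x hx =>
    h5 _ hp ((hg _ ⟨_, hp, rfl⟩ x).2 (h4 _ hp ⟨x, hx, rfl⟩))⟩

theorem creg : CompletelyRegularSpace C(Om, Om) :=
  CompletelyRegularSpace.of_isTopologicalBasis_clopens
    (TopologicalSpace.isTopologicalBasis_of_isOpen_of_nhds (fun _ h => h.isOpen)
      fun f _ hx hO => by
        obtain ⟨P, h1, h2⟩ := nbhd (hO.mem_nhds hx)
        exact ⟨_, Ag_clopen h1 f, fun _ _ _ => Iff.rfl, h2⟩)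

/-- the map of `ω*` given by a sequence of ultrafilters -/
def F (t : ℕ → Om) : C(Om, Om) where
  toFun x := mk (x.1.bind fun i => (t i.unpair.1).1) fun A hA =>
    Filter.mem_bind'.2 (univ_mem' fun i => (t _).le hA)
  continuous_toFun := by
    refine continuous_induced_rng.2 (ultrafilterBasis_is_basis.continuous_iff.2 ?_)
    rintro _ ⟨B, rfl⟩
    exact (St_clopen {i | B ∈ (t i.unpair.1).1}).2

theorem mem_F {t : ℕ → Om} {x : Om} {B : Set ℕ} :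
    B ∈ (F t x).1 ↔ {i : ℕ | B ∈ (t i.unpair.1).1} ∈ x.1 := Iff.rfl

theorem F_ag {t s : ℕ → Om} {P : Set (Set ℕ)} (h : ∀ n, ∀ B ∈ P, (B ∈ (t n).1 ↔ B ∈ (s n).1)) :
    F t ∈ Ag P (F s) := fun B hB x => by
  simp only [mem_F, h _ B hB]

theorem fib_inf (n : ℕ) : {i : ℕ | i.unpair.1 = n}.Infinite :=
  infinite_of_injective_forall_mem (f := fun k => Nat.pair n k)
    (fun a b h => (Nat.pair_eq_pair.1 h).2) fun k => by simp

theorem exists_pt : ∃ x : ℕ → Om, ∀ n t, F t (x n) = t n := by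
  have : ∀ n, ∃ x : Om, {i : ℕ | i.unpair.1 = n} ∈ x.1 := fun n => by
    have := (fib_inf n).cofinite_inf_principal_neBot
    have hu := Ultrafilter.of_le (cofinite ⊓ 𝓟 {i : ℕ | i.unpair.1 = n})
    exact ⟨mk _ (hu.trans inf_le_left), le_principal_iff.1 (hu.trans inf_le_right)⟩
  choose x hx using this
  refine ⟨x, fun n t => Subtype.ext (Ultrafilter.eq_of_le fun B hB => ?_)⟩
  exact mem_F.2 (mem_of_superset (hx n) fun i hi => by rw [mem_ofPred_eq, hi]; exact hB)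

theorem two (v : Om) {P : Set (Set ℕ)} (h : P.Countable) : ∃ (a b : Om) (B : Set ℕ),
    B ∈ a.1 ∧ B ∉ b.1 ∧ ∀ A ∈ P, (A ∈ a.1 ↔ A ∈ v.1) ∧ (A ∈ b.1 ↔ A ∈ v.1) := by
  let T : Set (Set ℕ) := {A | (A ∈ P ∨ Aᶜ ∈ P) ∧ A ∈ v.1}
  have hT : T.Countable := (h.union (h.preimage compl_injective)).mono fun A hA => hA.1
  have : (generate T).IsCountablyGenerated := ⟨⟨T, hT, rfl⟩⟩
  have : (atTop ⊓ generate T).NeBot := Filter.neBot_of_le (f := (v.1 : Filter ℕ))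
    (le_inf (Nat.cofinite_eq_atTop ▸ v.le) (le_generate_iff.2 fun A hA => hA.2))
  obtain ⟨a, ha⟩ := exists_seq_tendsto (atTop ⊓ generate T)
  obtain ⟨φ, h1, h2⟩ := strictMono_subseq_of_tendsto_atTop (tendsto_inf.1 ha).1
  have key : ∀ ψ : ℕ → ℕ, StrictMono ψ → ∃ u : Om, range (a ∘ φ ∘ ψ) ∈ u.1 ∧
      ∀ A ∈ P, (A ∈ u.1 ↔ A ∈ v.1) := fun ψ hψ => by
    have h3 : Tendsto (a ∘ φ ∘ ψ) (hyperfilter ℕ) (atTop ⊓ generate T) :=
      (ha.comp (h1.comp hψ).tendsto_atTop).mono_left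
        (Nat.cofinite_eq_atTop ▸ hyperfilter_le_cofinite)
    have h4 : ∀ A ∈ T, A ∈ (hyperfilter ℕ).map (a ∘ φ ∘ ψ) := fun A hA =>
      (tendsto_inf.1 h3).2 (mem_generate_of_mem hA)
    refine ⟨mk ((hyperfilter ℕ).map (a ∘ φ ∘ ψ)) (Nat.cofinite_eq_atTop ▸ (tendsto_inf.1 h3).1),
      range_mem_map, fun A hA => ⟨fun hh => ?_, fun hh => h4 A ⟨Or.inl hA, hh⟩⟩⟩
    by_contra hc
    exact Ultrafilter.compl_mem_iff_notMem.1 (h4 Aᶜ ⟨Or.inr (by simpa using hA),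
      Ultrafilter.compl_mem_iff_notMem.2 hc⟩) hh
  obtain ⟨u, a1, a2⟩ := key (fun n => 2 * n) fun _ _ h => by simpa using h
  obtain ⟨w, b1, b2⟩ := key (fun n => 2 * n + 1) fun _ _ h => by simpa using h
  refine ⟨u, w, _, a1, fun hh => ?_, fun A hA => ⟨a2 A hA, b2 A hA⟩⟩
  obtain ⟨_, ⟨i, rfl⟩, j, hj⟩ := Ultrafilter.nonempty_of_mem (inter_mem (f := (w.1 : Filter ℕ)) b1 hh)
  have : 2 * j = 2 * i + 1 := h2.injective hj
  omega

theorem not_cech : ¬ CechComplete C(Om, Om) := by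
  intro h
  have := creg
  obtain ⟨O, h1, h2⟩ := isGδ_iff_eq_iInter_nat.1 h
  obtain ⟨x, hx⟩ := exists_pt
  let v : Om := x 0
  let f := F fun _ => v
  have h3 : ∀ n, ∃ C ∈ 𝓝 (stoneCechUnit f), IsClosed C ∧ C ⊆ O n := fun n =>
    exists_mem_nhds_isClosed_subset ((h1 n).mem_nhds (mem_iInter.1 (h2 ▸ mem_range_self f) n))
  choose C c1 c2 c3 using h3
  choose P p1 p2 using fun n => nbhd (continuous_stoneCechUnit.continuousAt.preimage_mem_nhds (c1 n))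
  have hK : IsCompact (stoneCechUnit ⁻¹' ⋂ n, C n) :=
    isInducing_stoneCechUnit.isCompact_preimage' (isClosed_iInter c2).isCompact
      (h2 ▸ iInter_mono c3)
  obtain ⟨a, b, B, a1, a2, a3⟩ := two v (countable_iUnion fun n => (p1 n).countable)
  let t : ℕ → ℕ → Om := fun m n => if n = m then a else b
  obtain ⟨s, hs⟩ := hK.elim_finite_subcover (fun g => Ag {B} g)
    (fun g => (Ag_clopen (finite_singleton B) g).2)
    fun g _ => mem_iUnion.2 ⟨g, fun _ _ _ => Iff.rfl⟩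
  have h4 : ∀ m, ∃ g : s, F (t m) ∈ Ag {B} g.1 := fun m => by
    have : F (t m) ∈ stoneCechUnit ⁻¹' ⋂ n, C n := mem_iInter.2 fun k => p2 k (F_ag fun n A hA => by
      have := a3 A (mem_iUnion.2 ⟨k, hA⟩)
      by_cases e : n = m <;> simp [t, e, this.1, this.2])
    obtain ⟨g, hg, hg'⟩ := mem_iUnion₂.1 (hs this)
    exact ⟨⟨g, hg⟩, hg'⟩
  choose g hg using h4
  obtain ⟨i, j, hij, e⟩ := Finite.exists_ne_map_eq_of_infinite g
  have h5 := (hg i B rfl (x i)).trans (e ▸ (hg j B rfl (x i)).symm)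
  rw [hx, hx] at h5
  simp [t, hij, a1, a2] at h5

/-! an independent family and a maximal filter compatible with its cylinders -/

theorem exists_ind : ∃ I : ℝ → Set ℕ, ∀ (D : Finset ℝ) (y : Set ℝ),
    {i | ∀ r ∈ D, (i ∈ I r ↔ r ∈ y)}.Infinite := by
  classical
  obtain ⟨e, he⟩ := exists_surjective_nat (Finset (ℚ × ℚ))
  refine ⟨fun r => {i | ∃ p ∈ e i.unpair.1, (p.1 : ℝ) < r ∧ r < p.2}, fun D y => ?_⟩
  have : ∀ r : ℝ, ∃ p : ℚ × ℚ, (p.1 : ℝ) < r ∧ r < p.2 ∧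
      ∀ s ∈ D, (p.1 : ℝ) < s → s < p.2 → s = r := fun r => by
    obtain ⟨l, u, h1, h2⟩ := mem_nhds_iff_exists_Ioo_subset.1
      ((D.finite_toSet.subset (sdiff_subset (t := {r}))).isClosed.isOpen_compl.mem_nhds
        (show r ∉ (D : Set ℝ) \ {r} from fun h => h.2 rfl))
    obtain ⟨a, a1, a2⟩ := exists_rat_btwn h1.1
    obtain ⟨b, b1, b2⟩ := exists_rat_btwn h1.2
    exact ⟨(a, b), a2, b1, fun s hs s1 s2 => not_not.1 fun hc =>
      h2 ⟨a1.trans s1, s2.trans b2⟩ ⟨hs, hc⟩⟩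
  choose p p1 p2 p3 using this
  obtain ⟨m, hm⟩ := he ((D.filter (· ∈ y)).image p)
  refine (fib_inf m).mono fun i hi r hr => ?_
  rw [mem_ofPred_eq, show i.unpair.1 = m from hi, hm]
  constructor
  · rintro ⟨q, hq, q1, q2⟩
    obtain ⟨s, hs, rfl⟩ := Finset.mem_image.1 hq
    exact p3 s r hr q1 q2 ▸ (Finset.mem_filter.1 hs).2
  · exact fun h => ⟨p r, Finset.mem_image_of_mem _ (Finset.mem_filter.2 ⟨hr, h⟩), p1 r, p2 r⟩

def cyl (I : ℝ → Set ℕ) (D : Finset ℝ) (y : Set ℝ) : Set ℕ := {i | ∀ r ∈ D, (i ∈ I r ↔ r ∈ y)}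

theorem exists_M : ∃ (I : ℝ → Set ℕ) (M : Filter ℕ), M ≤ cofinite ∧ (∀ D y, (cyl I D y)ᶜ ∉ M) ∧
    ∀ A, Aᶜ ∉ M → ∃ D y, (cyl I D y \ A)ᶜ ∈ M := by
  obtain ⟨I, hI⟩ := exists_ind
  obtain ⟨J, -, hJ⟩ := zorn_subset_nonempty {J : Set (Set ℕ) | ∅ ∈ J ∧
    (∀ A ∈ J, ∀ B ∈ J, A ∪ B ∈ J) ∧ ∀ D y, ∀ A ∈ J, (cyl I D y \ A).Infinite}
    (fun c hc hch ⟨J0, h0⟩ => ⟨⋃₀ c, ⟨⟨J0, h0, (hc h0).1⟩, by
      rintro A ⟨J1, a1, a2⟩ B ⟨J2, b1, b2⟩
      rcases hch.total a1 b1 with h | h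
      · exact ⟨J2, b1, (hc b1).2.1 _ (h a2) _ b2⟩
      · exact ⟨J1, a1, (hc a1).2.1 _ a2 _ (h b2)⟩,
      fun D y A ⟨J1, a1, a2⟩ => (hc a1).2.2 D y A a2⟩, fun _ h => subset_sUnion_of_mem h⟩)
    {∅} ⟨rfl, by simp, fun D y A hA => by rw [hA, sdiff_empty]; exact hI D y⟩
  obtain ⟨j1, j2, j3⟩ := hJ.prop
  refine ⟨I, ⟨{A | ∃ B ∈ J, (Aᶜ \ B).Finite}, ⟨∅, j1, by simp⟩,
    fun ⟨B, h1, h2⟩ h => ⟨B, h1, h2.subset (sdiff_subset_sdiff_left (compl_subset_compl.2 h))⟩,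
    fun ⟨B, h1, h2⟩ ⟨C, h3, h4⟩ => ⟨_, j2 B h1 C h3, (h2.union h4).subset fun i hi => ?_⟩⟩,
    fun A hA => ⟨∅, j1, by simpa using hA⟩,
    fun D y ⟨B, h1, h2⟩ => j3 D y B h1 (by simpa using h2), fun A hA => ?_⟩
  · simp only [Set.mem_sdiff, mem_compl_iff, mem_inter_iff, mem_union] at hi ⊢
    tauto
  · by_contra hc
    push Not at hc
    have : J ∪ (fun B => B ∪ A) '' J ⊆ J := hJ.2 ⟨Or.inl j1, by
      rintro _ (a | ⟨B, a, rfl⟩) _ (b | ⟨C, b, rfl⟩)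
      · exact Or.inl (j2 _ a _ b)
      · exact Or.inr ⟨_, j2 _ a _ b, union_assoc _ _ _⟩
      · exact Or.inr ⟨_, j2 _ a _ b, union_right_comm _ _ _⟩
      · exact Or.inr ⟨_, j2 _ a _ b, union_union_distrib_right _ _ _⟩, by
      rintro D y _ (a | ⟨B, a, rfl⟩)
      · exact j3 D y _ a
      · exact fun hf => hc D y ⟨B, a, by rwa [compl_compl, Set.sdiff_sdiff, union_comm]⟩⟩
      subset_union_left
    exact hA ⟨_, this (Or.inr ⟨∅, j1, rfl⟩), by simp⟩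

theorem exU {M : Filter ℕ} (hM : M ≤ cofinite) (C : Set (Set ℕ))
    (h : ∀ T ⊆ C, T.Finite → (⋂₀ T)ᶜ ∉ M) : ∃ u : Om, (u.1 : Filter ℕ) ≤ M ∧ ∀ A ∈ C, A ∈ u.1 := by
  have : (M ⊓ generate C).NeBot := by
    rw [← forall_mem_nonempty_iff_neBot]
    intro s hs
    obtain ⟨a, ha, b, hb, rfl⟩ := mem_inf_iff.1 hs
    obtain ⟨T, h1, h2, h3⟩ := mem_generate_iff.1 hb
    by_contra hc
    exact h T h1 h2 (mem_of_superset ha fun i hi hi' => hc ⟨i, hi, h3 hi'⟩)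
  have hu := Ultrafilter.of_le (M ⊓ generate C)
  exact ⟨mk _ (hu.trans (inf_le_left.trans hM)), hu.trans inf_le_left,
    fun A hA => hu.trans inf_le_right (mem_generate_of_mem hA)⟩

theorem clo (Ψ : Finset ℝ → Set ℝ) (h : ∀ F, (Ψ F).Countable) : ∃ α : ℕ → ℝ,
    Function.Injective α ∧ ∀ F : Finset ℝ, ↑F ⊆ range α → Ψ F ⊆ range α := by
  let S : ℕ → Set ℝ := fun n => Nat.rec (range ((↑) : ℕ → ℝ))
    (fun _ s => s ∪ ⋃ F ∈ {F : Finset ℝ | ↑F ⊆ s}, Ψ F) n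
  have h1 : ∀ n, (S n).Countable := fun n => by
    induction n with
    | zero => exact countable_range _
    | succ n ih =>
      refine ih.union (Countable.biUnion ?_ fun F _ => h F)
      exact ((countable_ofPred_finite_subset ih).preimage_of_injOn
        (Finset.coe_injective (α := ℝ)).injOn).mono fun F hF => And.intro F.finite_toSet hF
  have h2 : Monotone S := monotone_nat_of_le_succ fun n => subset_union_left
  have : Countable (⋃ n, S n) := (countable_iUnion h1).to_subtype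
  have : Infinite (⋃ n, S n) := ((infinite_range_of_injective Nat.cast_injective).mono
    (subset_iUnion S 0)).to_subtype
  obtain ⟨e⟩ : Nonempty (ℕ ≃ (⋃ n, S n)) := nonempty_equiv_of_countable
  have h3 : range (fun n => (e n).1) = ⋃ n, S n := by
    rw [show (fun n => (e n).1) = Subtype.val ∘ e from rfl, e.surjective.range_comp,
      Subtype.range_coe]
  refine ⟨fun n => (e n).1, Subtype.val_injective.comp e.injective, fun F hF => ?_⟩
  rw [h3] at hF ⊢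
  obtain ⟨n, hn⟩ := ((eventually_all_finite F.finite_toSet).2 fun r hr => by
    obtain ⟨k, hk⟩ := mem_iUnion.1 (hF hr)
    exact (eventually_ge_atTop k).mono fun n hn => h2 hn hk).exists
  exact fun r hr => mem_iUnion.2 ⟨n + 1, Or.inr (mem_biUnion (show F ∈ {F : Finset ℝ | ↑F ⊆ S n}
    from hn) hr)⟩

def Z (F : Finset ℝ) : Set (ℕ → Finset ℝ) := {z | ∃ k, (∀ n, k ≤ n → z n = ∅) ∧ ∀ n, z n ⊆ F}

theorem Z_count (F : Finset ℝ) : (Z F).Countable := by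
  refine (countable_iUnion fun k : ℕ => countable_range fun (g : Fin k → F.powerset) (n : ℕ) =>
    if h : n < k then (g ⟨n, h⟩).1 else ∅).mono fun z ⟨k, h1, h2⟩ => ?_
  refine mem_iUnion.2 ⟨k, fun i => ⟨z i, Finset.mem_powerset.2 (h2 i)⟩, funext fun n => ?_⟩
  by_cases h : n < k
  · simp [h]
  · simp [h, h1 n (not_lt.1 h)]

def trunc (k : ℕ) (y : ℕ → Finset ℝ) : ℕ → Finset ℝ := fun n => if n < k then y n else ∅

theorem trunc_trunc {i n : ℕ} (h : i ≤ n) (y : ℕ → Finset ℝ) : trunc i (trunc n y) = trunc i y := by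
  funext m
  by_cases hm : m < i <;> simp [trunc, hm]
  exact fun hh => absurd (hm.trans_le h) hh.not_gt

theorem exists_rec (G : ℕ → (ℕ → Finset ℝ) → Finset ℝ) : ∃ y, ∀ n, y n = G n (trunc n y) := by
  let y : ℕ → Finset ℝ := WellFoundedLT.fix fun n r => G n fun i => if h : i < n then r i h else ∅
  refine ⟨y, fun n => ?_⟩
  rw [show y n = G n fun i => if h : i < n then y i else ∅ from WellFoundedLT.fix_eq _ n]
  rfl

def T (P : Set (Set ℕ)) (u : Om) : Set (Set ℕ) := {A | (A ∈ P ∨ Aᶜ ∈ P) ∧ A ∈ u.1}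

theorem T_fin {P : Set (Set ℕ)} (h : P.Finite) (u : Om) : (T P u).Finite :=
  (h.union (h.preimage compl_injective.injOn)).subset fun _ hA => hA.1

theorem T_ag {P : Set (Set ℕ)} {u w : Om} (h : ∀ A ∈ T P u, A ∈ w.1) :
    ∀ B ∈ P, (B ∈ w.1 ↔ B ∈ u.1) := fun B hB => ⟨fun hh => not_not.1 fun hc =>
  Ultrafilter.compl_mem_iff_notMem.1 (h Bᶜ ⟨Or.inr (by simpa using hB),
    Ultrafilter.compl_mem_iff_notMem.2 hc⟩) hh, fun hh => h B ⟨Or.inl hB, hh⟩⟩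

theorem cyl_mem {I : ℝ → Set ℕ} {E : Finset ℝ} {y : Set ℝ} {u : Om}
    (h : ∀ r ∈ E, (I r ∈ u.1 ↔ r ∈ y)) : cyl I E y ∈ u.1 := by
  refine (eventually_all_finset E (l := (u.1 : Filter ℕ))).2 fun r hr => ?_
  by_cases e : r ∈ y
  · exact Eventually.mono ((h r hr).2 e) fun i hi => iff_of_true hi e
  · exact Eventually.mono (Ultrafilter.compl_mem_iff_notMem.2 fun hh => e ((h r hr).1 hh))
      fun i hi => iff_of_false hi e

theorem exW {M : Filter ℕ} (hM : M ≤ cofinite) (I : ℝ → Set ℕ) (C : Set (Set ℕ)) (R y : Set ℝ)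
    (h : ∀ T ⊆ C, T.Finite → ∀ E : Finset ℝ, ↑E ⊆ R → (⋂₀ T ∩ cyl I E y)ᶜ ∉ M) :
    ∃ u : Om, (u.1 : Filter ℕ) ≤ M ∧ (∀ A ∈ C, A ∈ u.1) ∧ ∀ r ∈ R, (I r ∈ u.1 ↔ r ∈ y) := by
  obtain ⟨u, h1, h2⟩ := exU hM (C ∪ (fun r => cyl I {r} y) '' R) fun T h1 h2 h3 => by
    obtain ⟨E, e1, e2, e3⟩ := (h2.subset (sdiff_subset (t := C))).exists_subset_finite_image_eq
      (f := fun r => cyl I {r} y) (s := R) fun A hA => (h1 hA.1).resolve_left hA.2
    refine h (T ∩ C) inter_subset_right (h2.inter_of_left _) e2.toFinset (by simpa using e1)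
      (mem_of_superset h3 (compl_subset_compl.2 fun i hi A hA => ?_))
    by_cases hc : A ∈ C
    · exact hi.1 A ⟨hA, hc⟩
    · obtain ⟨r, hr, rfl⟩ : A ∈ (fun r => cyl I {r} y) '' E := e3 ▸ ⟨hA, hc⟩
      intro s hs
      rw [Finset.mem_singleton.1 hs]
      exact hi.2 r (e2.mem_toFinset.2 hr)
  refine ⟨u, h1, fun A hA => h2 A (Or.inl hA), fun r hr => ?_⟩
  have h3 := h2 _ (Or.inr ⟨r, hr, rfl⟩)
  refine ⟨fun hh => ?_, fun hh => mem_of_superset h3 fun i hi => (hi r (by simp)).2 hh⟩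
  obtain ⟨i, a, b⟩ := Ultrafilter.nonempty_of_mem (inter_mem (f := (u.1 : Filter ℕ)) h3 hh)
  exact (a r (by simp)).1 b

noncomputable def nu (I : ℝ → Set ℕ) (x : ℕ → Om) (f : C(Om, Om)) (r : ℝ) : ℕ :=
  sInf {m | ∃ n, m = n + 1 ∧ I r ∈ (f (x n)).1}

theorem nu_eq {I : ℝ → Set ℕ} {x : ℕ → Om} {f : C(Om, Om)} {r : ℝ} {m : ℕ}
    (h1 : I r ∈ (f (x m)).1) (h2 : ∀ n, I r ∈ (f (x n)).1 → m ≤ n) : nu I x f r = m + 1 :=
  IsLeast.csInf_eq ⟨⟨m, rfl, h1⟩, by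
    rintro _ ⟨n, rfl, hn⟩
    exact Nat.succ_le_succ (h2 n hn)⟩

def H (I : ℝ → Set ℕ) (x : ℕ → Om) (i : ℕ) : Set C(Om, Om) :=
  {f | ∀ r s, r ≠ s → nu I x f r = nu I x f s → nu I x f r = i}

theorem H_closed (I : ℝ → Set ℕ) (x : ℕ → Om) (i : ℕ) : IsClosed (H I x i) := by
  refine ⟨isOpen_iff_mem_nhds.2 fun f hf => ?_⟩
  simp only [H, mem_compl_iff, mem_ofPred_eq, not_forall] at hf
  obtain ⟨r, s, h1, h2, h3⟩ := hf
  refine mem_of_superset ((Ag_clopen (toFinite {I r, I s}) f).2.mem_nhds fun _ _ _ => Iff.rfl)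
    fun g hg hh => ?_
  have a : nu I x g r = nu I x f r := by simp only [nu, hg (I r) (by simp)]
  have b : nu I x g s = nu I x f s := by simp only [nu, hg (I s) (by simp)]
  exact h3 (a ▸ hh r s h1 (by rw [a, b, h2]))

theorem not_normal : ¬ NormalSpace C(Om, Om) := by
  classical
  intro hN
  obtain ⟨I, M, hM, hcyl, hmax⟩ := exists_M
  obtain ⟨x, hx⟩ := exists_pt
  have hD : ∀ A, ∃ D y, Aᶜ ∉ M → (cyl I D y \ A)ᶜ ∈ M := fun A => by
    by_cases h : Aᶜ ∈ M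
    · exact ⟨∅, ∅, fun hh => absurd h hh⟩
    · obtain ⟨D, y, h⟩ := hmax A h
      exact ⟨D, y, fun _ => h⟩
  choose D Y hD using hD
  have hu : ∀ y : Finset ℝ, ∃ u : Om, (u.1 : Filter ℕ) ≤ M ∧ ∀ r, (I r ∈ u.1 ↔ r ∈ y) := fun y => by
    obtain ⟨u, h1, -, h2⟩ := exW hM I ∅ univ y fun T h1 _ E _ => by
      rw [subset_empty_iff.1 h1, sInter_empty, univ_inter]
      exact hcyl E y
    exact ⟨u, h1, fun r => h2 r trivial⟩
  choose u u1 u2 using hu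
  have big : ∀ (y : Finset ℝ) (T : Set (Set ℕ)), T.Finite → (∀ A ∈ T, A ∈ (u y).1) →
      (⋂₀ T)ᶜ ∉ M := fun y T h1 h2 h3 =>
    Ultrafilter.compl_mem_iff_notMem.1 (u1 y h3) ((sInter_mem (f := ((u y).1 : Filter ℕ)) h1).2 h2)
  obtain ⟨U, V, hU, hV, h0, h1, hUV⟩ := hN.normal _ _ (H_closed I x 0) (H_closed I x 1) (by
    refine disjoint_left.2 fun f a b => not_countable_univ (α := ℝ) (countable_univ_iff.2 ?_)
    refine Function.Injective.countable (f := nu I x f) fun r s e => not_not.1 fun hc => ?_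
    exact zero_ne_one ((a r s hc e).symm.trans (b r s hc e)))
  have hP : ∀ z : ℕ → Finset ℝ, ∃ P : Set (Set ℕ), P.Finite ∧
      (F (fun n => u (z n)) ∈ U → Ag P (F fun n => u (z n)) ⊆ U) := fun z => by
    by_cases h : F (fun n => u (z n)) ∈ U
    · obtain ⟨P, a, b⟩ := nbhd (hU.mem_nhds h)
      exact ⟨P, a, fun _ => b⟩
    · exact ⟨∅, finite_empty, fun hh => absurd hh h⟩
  choose P p1 p2 using hP
  let Gen : Finset ℝ → Set (Set ℕ) := fun E =>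
    {A | (∃ z ∈ Z E, A ∈ P z ∨ Aᶜ ∈ P z) ∨ ∃ r ∈ E, A = I r ∨ A = (I r)ᶜ}
  have gc : ∀ E, (Gen E).Countable := fun E => by
    refine (((Z_count E).biUnion fun z _ => ((p1 z).union ((p1 z).preimage
      compl_injective.injOn)).countable).union (E.countable_toSet.biUnion
        fun r _ => (toFinite {I r, (I r)ᶜ}).countable)).mono ?_
    rintro A (⟨z, a, b⟩ | ⟨r, a, b⟩)
    exacts [Or.inl (mem_biUnion a b), Or.inr (mem_biUnion a b)]
  have gm : Monotone Gen := by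
    rintro E E' h A (⟨z, ⟨k, a, a'⟩, b⟩ | ⟨r, a, b⟩)
    exacts [Or.inl ⟨z, ⟨k, a, fun n => (a' n).trans h⟩, b⟩, Or.inr ⟨r, h a, b⟩]
  obtain ⟨α, hα, hS⟩ := clo (fun E => ⋃ T ∈ {T | T.Finite ∧ T ⊆ Gen E}, ↑(D (⋂₀ T)))
    fun E => (countable_ofPred_finite_subset (gc E)).biUnion fun T _ => Finset.countable_toSet _
  let E : ℕ → Finset ℝ := fun n => (Finset.range n).image α
  have hE : ∀ m n, α m ∈ E n ↔ m < n := fun m n => by simp [E, hα.eq_iff]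
  have hEm : Monotone E := fun m n h => Finset.image_subset_image (Finset.range_mono h)
  have hES : ∀ n, ↑(E n) ⊆ range α := fun n r hr => by
    obtain ⟨m, -, rfl⟩ := Finset.mem_image.1 hr
    exact ⟨m, rfl⟩
  have hDS : ∀ T ⊆ ⋃ n, Gen (E n), T.Finite → ↑(D (⋂₀ T)) ⊆ range α := fun T a b => by
    obtain ⟨n, hn⟩ := ((eventually_all_finite b).2 fun A hA => by
      obtain ⟨k, hk⟩ := mem_iUnion.1 (a hA)
      exact (eventually_ge_atTop k).mono fun n hn => gm (hEm hn) hk).exists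
    exact fun r hr => hS (E n) (hES n) (mem_biUnion (show T ∈ {T | T.Finite ∧ T ⊆ Gen (E n)}
      from ⟨b, hn⟩) hr)
  let TT : ℕ → (ℕ → Finset ℝ) → Set (Set ℕ) := fun j z => ⋃ i ∈ Iio j, T (P (trunc i z)) (u ∅)
  have tf : ∀ j z, (TT j z).Finite := fun j z => (finite_Iio j).biUnion fun i _ => T_fin (p1 _) _
  have tt : ∀ j n z, j ≤ n → TT j (trunc n z) = TT j z := fun j n z h =>
    iUnion₂_congr fun i hi => by rw [trunc_trunc ((mem_Iio.1 hi).le.trans h)]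
  let J : ℕ → (ℕ → Finset ℝ) → ℕ := fun n z => Nat.findGreatest (fun j => D (⋂₀ TT j z) ⊆ E n) n
  obtain ⟨y, hy⟩ := exists_rec fun n z =>
    insert (α n) ((E n).filter (· ∈ Y (⋂₀ TT (J n z) z)))
  have y1 : ∀ n, α n ∈ y n := fun n => hy n ▸ Finset.mem_insert_self _ _
  have y2 : ∀ n, y n ⊆ E (n + 1) := fun n => by
    rw [hy n]
    exact Finset.insert_subset ((hE _ _).2 n.lt_succ_self)
      ((Finset.filter_subset _ _).trans (hEm n.le_succ))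
  have y3 : ∀ m n, α m ∈ y n → m ≤ n := fun m n h => Nat.lt_succ_iff.1 ((hE _ _).1 (y2 n h))
  have tz : ∀ k, trunc k y ∈ Z (E k) := fun k => ⟨k, fun n hn => if_neg hn.not_gt, fun n => by
    by_cases h : n < k
    · simpa [trunc, h] using (y2 n).trans (hEm h)
    · simp [trunc, h]⟩
  have tg : ∀ k w, T (P (trunc k y)) w ⊆ ⋃ n, Gen (E n) := fun k w A hA =>
    mem_iUnion.2 ⟨k, Or.inl ⟨_, tz k, hA.1⟩⟩
  have y4 : ∀ k, ∀ᶠ n in atTop, ∀ A ∈ T (P (trunc k y)) (u ∅), A ∈ (u (y n)).1 := fun k => by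
    have a1 : ∀ᶠ n in atTop, ∀ r ∈ D (⋂₀ TT (k + 1) y), r ∈ E n :=
      (eventually_all_finset _).2 fun r hr => by
        obtain ⟨m, rfl⟩ := hDS _ (iUnion₂_subset fun i _ => tg i _) (tf _ _) hr
        exact (eventually_gt_atTop m).mono fun n hn => (hE _ _).2 hn
    refine (a1.and (eventually_ge_atTop (k + 1))).mono fun n ⟨b1, b2⟩ A hA => ?_
    have b3 : D (⋂₀ TT (k + 1) (trunc n y)) ⊆ E n := by rwa [tt _ _ _ b2]
    have b4 : k + 1 ≤ J n (trunc n y) := Nat.le_findGreatest b2 b3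
    have b5 : D (⋂₀ TT (J n (trunc n y)) (trunc n y)) ⊆ E n :=
      Nat.findGreatest_spec (P := fun j => D (⋂₀ TT j (trunc n y)) ⊆ E n) b2 b3
    have b6 := u1 (y n) (hD _ (big ∅ _ (tf (J n (trunc n y)) (trunc n y)) fun B hB => by
      obtain ⟨i, -, hi⟩ := mem_iUnion₂.1 hB
      exact hi.2))
    have b7 : cyl I (D (⋂₀ TT (J n (trunc n y)) (trunc n y)))
        (Y (⋂₀ TT (J n (trunc n y)) (trunc n y))) ∈ (u (y n)).1 := cyl_mem fun r hr => by
      rw [u2, hy n, Finset.mem_insert, Finset.mem_filter]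
      refine ⟨fun h => h.elim (fun e => ?_) fun h => h.2, fun h => Or.inr ⟨b5 hr, h⟩⟩
      exact absurd ((hE _ _).1 (e ▸ b5 hr)) (lt_irrefl n)
    refine mem_of_superset (inter_mem b6 b7) fun i hi => ?_
    refine (not_not.1 fun hc => hi.1 ⟨hi.2, hc⟩ : i ∈ ⋂₀ _) A ?_
    rw [tt _ _ _ (Nat.findGreatest_le n)]
    exact mem_biUnion (show k ∈ Iio _ from b4) hA
  have hw : ∀ n, ∃ w : Om, (∀ A ∈ ⋃ n, Gen (E n), A ∈ (u (y n)).1 → A ∈ w.1) ∧
      ∀ r, r ∉ range α → I r ∈ w.1 := fun n => by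
    obtain ⟨w, -, a, b⟩ := exW hM I {A | A ∈ ⋃ n, Gen (E n) ∧ A ∈ (u (y n)).1} (range α)ᶜ univ
      fun T t1 t2 R hR hc => by
        refine hcyl (D (⋂₀ T) ∪ R) (Y (⋂₀ T) ∪ (range α)ᶜ) (mem_of_superset (inter_mem hc
          (hD _ (big (y n) T t2 fun A hA => (t1 hA).2))) fun i hi hi' => ?_)
        have c1 : i ∈ cyl I (D (⋂₀ T)) (Y (⋂₀ T)) := fun r hr =>
          (hi' r (Finset.mem_union_left _ hr)).trans (or_iff_left fun h =>
            h (hDS T (fun A hA => (t1 hA).1) t2 hr))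
        exact hi.1 ⟨not_not.1 fun h => hi.2 ⟨c1, h⟩, fun r hr => iff_of_true
          ((hi' r (Finset.mem_union_right _ hr)).2 (Or.inr (hR hr))) trivial⟩
    exact ⟨w, fun A h1 h2 => a A ⟨h1, h2⟩, fun r hr => (b r hr).2 trivial⟩
  choose w w1 w2 using hw
  have w3 : ∀ m n, I (α m) ∈ (w n).1 ↔ α m ∈ y n := fun m n => by
    rw [← u2]
    refine T_ag (P := {I (α m)}) (fun A hA => w1 n A (mem_iUnion.2 ⟨m + 1, Or.inr
      ⟨α m, (hE _ _).2 m.lt_succ_self, ?_⟩⟩) hA.2) _ rfl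
    exact hA.1.imp id fun h => by rw [← mem_singleton_iff.1 h, compl_compl]
  have g1 : F w ∈ H I x 1 := fun r s hrs e => by
    have a : ∀ m, nu I x (F w) (α m) = m + 1 := fun m =>
      nu_eq (by rw [hx, w3]; exact y1 m) fun n hn => y3 m n (by rwa [hx, w3] at hn)
    have b : ∀ r, r ∉ range α → nu I x (F w) r = 1 := fun r hr =>
      nu_eq (m := 0) (by rw [hx]; exact w2 0 r hr) fun n _ => n.zero_le
    by_cases hr : r ∈ range α
    · by_cases hs : s ∈ range α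
      · obtain ⟨m, rfl⟩ := hr
        obtain ⟨n, rfl⟩ := hs
        rw [a, a] at e
        exact absurd (congrArg α (Nat.succ_injective e)) hrs
      · exact e ▸ b s hs
    · exact b r hr
  have g0 : ∀ k, F (fun n => u (trunc k y n)) ∈ H I x 0 := fun k r s hrs e => by
    have a : ∀ r, nu I x (F fun n => u (trunc k y n)) r ≠ 0 →
        ∃ m, r = α m ∧ nu I x (F fun n => u (trunc k y n)) r = m + 1 := fun r hr => by
      obtain ⟨_, n, rfl, hn⟩ := Nat.nonempty_of_pos_sInf (Nat.pos_of_ne_zero hr)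
      have b : ∀ r n, I r ∈ (F (fun n => u (trunc k y n)) (x n)).1 ↔ n < k ∧ r ∈ y n := fun r n => by
        rw [hx, u2]
        by_cases h : n < k <;> simp [trunc, h]
      obtain ⟨c1, c2⟩ := (b _ _).1 hn
      obtain ⟨m, rfl⟩ := hES _ (y2 n c2)
      exact ⟨m, rfl, nu_eq ((b _ _).2 ⟨(y3 m n c2).trans_lt c1, y1 m⟩)
        fun j hj => y3 m j ((b _ _).1 hj).2⟩
    by_contra hc
    obtain ⟨m, rfl, a1⟩ := a r hc
    obtain ⟨n, rfl, a2⟩ := a s (e ▸ hc)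
    exact hrs (congrArg α (Nat.succ_injective (a1.symm.trans (e.trans a2))))
  obtain ⟨Q, q1, q2⟩ := nbhd (hV.mem_nhds (h1 g1))
  have bad : ∀ k, ∃ n, ∀ t : Om, (∀ B ∈ P (trunc k y), (B ∈ t.1 ↔ B ∈ (u (trunc k y n)).1)) →
      ¬ ∀ B ∈ Q, (B ∈ t.1 ↔ B ∈ (w n).1) := fun k => by
    by_contra hc
    push Not at hc
    choose t t1 t2 using hc
    exact disjoint_left.1 hUV (p2 _ (h0 (g0 k)) (F_ag t1)) (q2 (F_ag t2))
  choose n hn using bad
  have hk : ∀ k, k ≤ n k := fun k => not_lt.1 fun h => hn k (w (n k)) (T_ag fun A hA =>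
    w1 _ A (tg k _ hA) (by simpa [trunc, h] using hA.2)) fun _ _ => Iff.rfl
  have := q1.to_subtype
  obtain ⟨c, hc⟩ := Finite.exists_infinite_fiber fun k => fun B : Q => B.1 ∈ (w (n k)).1
  have hc := infinite_coe_iff.1 hc
  obtain ⟨k, hk1⟩ := hc.nonempty
  obtain ⟨N, hN⟩ := eventually_atTop.1 (y4 k)
  obtain ⟨i, hi1, hi2⟩ := hc.exists_gt N
  refine hn k (w (n i)) ?_ fun B hB => iff_of_eq (congrFun (hi1.trans hk1.symm) ⟨B, hB⟩)
  rw [show trunc k y (n k) = ∅ from if_neg (hk k).not_gt]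
  exact T_ag fun A hA => w1 _ A (tg k _ hA) (hN _ (hi2.le.trans (hk i)) A hA)

theorem result : ¬ NormalSpace C(Om, Om) ∧ ¬ CechComplete C(Om, Om) := ⟨not_normal, not_cech⟩

end Pool.Agent.Results.MP_7e6923_gt.Neither
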